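import Mathlib
import Pool.Agent.Results.MP_9b502d_nt.LargeCriticalHeight
import Pool.Agent.Y833.CH.Ext
import Pool.Agent.Y706.CH.Gon

/-!
# Preperiodic points of bounded gonality: all quadratic and bicritical rational maps and all
rational maps of large critical height
-/

namespace Pool.Agent.Results.MP_62a0c3_nt.LargeCriticalHeight

open Polynomial

universe u v

/-- The self-map of the projective line `K ∪ {∞}`, where `none` is `∞`, given by the rational
function `p / q`, where `p` and `q` are coprime and `d` is the larger of their degrees: it sends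
`x` to `p(x) / q(x)`, or to `∞` when `q(x) = 0`, and it sends `∞` to the quotient of the
coefficients of degree `d`, or to `∞` when that of `q` is zero. -/
noncomputable def mapP1 {K : Type*} [Field K] (p q : K[X]) (d : ℕ) : Option K → Option K
  | some x => by classical exact if q.eval x = 0 then none else some (p.eval x / q.eval x)
  | none => by classical exact if q.coeff d = 0 then none else some (p.coeff d / q.coeff d)

/-- With `φ(x) = (a x + b) / (c x + e)`, the map `p / q` of degree `d` satisfies
`φ ∘ (p / q) = (u / w) ∘ φ` for some `a, b, c, e` in `K` with `a e ≠ b c` and some polynomials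
`u, w` of degree at most `d`, not both zero, with coefficients algebraic over `k`; the equation is
written with denominators cleared. -/
def IsotrivialOver (k : Type*) {K : Type*} [Field k] [Field K] [Algebra k K] (p q : K[X])
    (d : ℕ) : Prop :=
  ∃ a b c e : K, a * e - b * c ≠ 0 ∧ ∃ u w : K[X], (u ≠ 0 ∨ w ≠ 0) ∧
    u.natDegree ≤ d ∧ w.natDegree ≤ d ∧ (∀ n, IsAlgebraic k (u.coeff n)) ∧
    (∀ n, IsAlgebraic k (w.coeff n)) ∧
    (C a * p + C b * q) * ∑ i ∈ Finset.range (d + 1),
      C (w.coeff i) * (C a * X + C b) ^ i * (C c * X + C e) ^ (d - i) =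
    (C c * p + C e * q) * ∑ i ∈ Finset.range (d + 1),
      C (u.coeff i) * (C a * X + C b) ^ i * (C c * X + C e) ^ (d - i)

/-- The map `p / q` of degree `d` is bicritical over the field `M`: for two different points
`(a₁ : a₂)` and `(b₁ : b₂)` of the projective line, `p` and `q` are linear combinations of
`(a₂ X - a₁) ^ d` and `(b₂ X - b₁) ^ d`. -/
def Bicritical {M : Type*} [Field M] (p q : M[X]) (d : ℕ) : Prop :=
  ∃ a₁ a₂ b₁ b₂ : M, a₁ * b₂ - a₂ * b₁ ≠ 0 ∧ ∃ u₁ u₂ v₁ v₂ : M,
    p = C u₁ * (C a₂ * X - C a₁) ^ d + C v₁ * (C b₂ * X - C b₁) ^ d ∧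
    q = C u₂ * (C a₂ * X - C a₁) ^ d + C v₂ * (C b₂ * X - C b₁) ^ d

/-- The height of a point of the projective line `M ∪ {∞}` over a function field `M` of one
variable over `k`: the degree of the field extension `M / k(x)` if `x` is transcendental over `k`.
It is zero for `∞` and for `x` algebraic over `k` (as `Module.finrank` is zero for an extension of
infinite degree). -/
noncomputable def height (k : Type*) {M : Type*} [Field k] [Field M] [Algebra k M] :
    Option M → ℕ
  | some x => Module.finrank (IntermediateField.adjoin k {x}) M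
  | none => 0

/-- The canonical height of the point `c` for the map `f = p / q` of degree `d`: the limes superior
(in fact the limit) of `height (f^m (c)) / d^m`. -/
noncomputable def canonicalHeight (k : Type*) {M : Type*} [Field k] [Field M] [Algebra k M]
    (p q : M[X]) (d : ℕ) (c : Option M) : ENNReal :=
  Filter.limsup (fun m : ℕ => (height k ((mapP1 p q d)^[m] c) : ENNReal) / (d : ENNReal) ^ m)
    Filter.atTop

/-- The point `c` is a critical point of the map `p / q` of degree `d` (in characteristic zero):
a zero of `p' q - p q'`, or `∞` if `p' q - p q'` has degree less than `2 d - 2`. -/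
def IsCritical {M : Type*} [Field M] (p q : M[X]) (d : ℕ) : Option M → Prop
  | some x => (derivative p * q - p * derivative q).eval x = 0
  | none => (derivative p * q - p * derivative q).coeff (2 * d - 2) = 0

/-- The height of the pair `u, w` of polynomials of degree at most `d`: the largest height of a
coefficient. -/
noncomputable def mapHeight (k : Type*) {M : Type*} [Field k] [Field M] [Algebra k M]
    (u w : M[X]) (d : ℕ) : ℕ :=
  (Finset.range (d + 1)).sup fun i =>
    max (height k (some (u.coeff i))) (height k (some (w.coeff i)))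

/-- The map `u / w` of degree `d` is the conjugate `φ ∘ (p / q) ∘ φ⁻¹` of the map `p / q` of
degree `d` by `φ(x) = (a x + b) / (c x + e)` for some `a, b, c, e` in `M` with `a e ≠ b c`; the
equation `(u / w) ∘ φ = φ ∘ (p / q)` is written with denominators cleared. -/
def Conjugate {M : Type*} [Field M] (p q u w : M[X]) (d : ℕ) : Prop :=
  ∃ a b c e : M, a * e - b * c ≠ 0 ∧ ∃ s : M, s ≠ 0 ∧
    ∑ i ∈ Finset.range (d + 1),
      C (u.coeff i) * (C a * X + C b) ^ i * (C c * X + C e) ^ (d - i) =
        C s * (C a * p + C b * q) ∧
    ∑ i ∈ Finset.range (d + 1),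
      C (w.coeff i) * (C a * X + C b) ^ i * (C c * X + C e) ^ (d - i) =
        C s * (C c * p + C e * q)

/-- The map `p / q` of degree `d` over `L` has large critical height: over some extension `M` of
`L` of degree at most `B` it is conjugate to a map `u / w` of degree `d`, with all critical points
in the projective line over `M`, which has a critical point `c` such that
`0 < H ≤ B * ĥ(c)`, where `H` is the largest height of a coefficient of `u` or `w` and `ĥ(c)` is
the canonical height of `c` for the map `u / w` (all heights over `M`). -/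
def HasLargeCriticalHeight (k : Type v) {L : Type u} [Field k] [Field L] [Algebra k L] (p q : L[X])
    (d B : ℕ) : Prop :=
  ∃ (M : Type u) (_ : Field M) (_ : Algebra k M) (_ : Algebra L M), IsScalarTower k L M ∧
    FiniteDimensional L M ∧ Module.finrank L M ≤ B ∧
    ∃ u w : M[X], IsCoprime u w ∧ max u.natDegree w.natDegree = d ∧
      Conjugate (p.map (algebraMap L M)) (q.map (algebraMap L M)) u w d ∧
      (derivative u * w - u * derivative w).Splits ∧
      ∃ c : Option M, IsCritical u w d c ∧ 0 < mapHeight k u w d ∧
        (mapHeight k u w d : ENNReal) ≤ B * canonicalHeight k u w d c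

/-- The field `E` over `k` is a finite extension of `k(t)` of degree at most `D` for some `t`
transcendental over `k`: it is the function field of a curve over `k` of gonality at most `D`. -/
def GonalityLE (k E : Type*) [Field k] [Field E] [Algebra k E] (D : ℕ) : Prop :=
  ∃ t : E, Transcendental k t ∧ FiniteDimensional (IntermediateField.adjoin k {t}) E ∧
    Module.finrank (IntermediateField.adjoin k {t}) E ≤ D

/-- The set `Preper(f, D)` for the rational map `f = p / q` of degree `d` over `K`: the points `z`
of the projective line over an algebraic closure of `K` with finite orbit for which the field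
`K(z)` has gonality at most `D` over `k`. -/
def Preper (k : Type*) {K : Type*} [Field k] [Field K] [Algebra k K] (p q : K[X]) (d D : ℕ) :
    Set (Option (AlgebraicClosure K)) :=
  {z | (Set.range fun m : ℕ => (mapP1 (p.map (algebraMap K (AlgebraicClosure K)))
      (q.map (algebraMap K (AlgebraicClosure K))) d)^[m] z).Finite ∧
    GonalityLE k (IntermediateField.adjoin K {x : AlgebraicClosure K | z = some x}) D}

/-- There is a function `N` such that the following holds for every field `k` of characteristic
zero (in particular for the field of complex numbers), every field `K` over `k` (the function field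
of a curve), every `D`, `d ≥ 2`, `B`, and every rational map `f = p / q` of degree `d` over `K`.
Suppose that
* `f` has large critical height with the constant `B`, or
* `f` is not isotrivial, and `d = 2` or `f` is bicritical over an algebraic closure of `K`.
Then `Preper(f, D)` has at most `N(D, d, B)` points. -/
theorem result : ∃ N : ℕ → ℕ → ℕ → ℕ, ∀ (k : Type v) (K : Type u) [Field k] [CharZero k]
    [Field K] [Algebra k K] (D d B : ℕ), 2 ≤ d →
    ∀ p q : K[X], IsCoprime p q → max p.natDegree q.natDegree = d →
      (HasLargeCriticalHeight k p q d B ∨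
        ¬ IsotrivialOver k (p.map (algebraMap K (AlgebraicClosure K)))
          (q.map (algebraMap K (AlgebraicClosure K))) d ∧
        (d = 2 ∨ Bicritical (p.map (algebraMap K (AlgebraicClosure K)))
          (q.map (algebraMap K (AlgebraicClosure K))) d)) →
      (Preper k p q d D).encard ≤ ((N D d B : ℕ) : ℕ∞) := by
  have e : ∀ (K : Type u) [Field K] (p q : K[X]) (d : ℕ),
      mapP1 p q d = Pool.Agent.W277.UH.ratP1 p q d := by
    intro K _ p q d
    funext z
    cases z <;> rfl
  have e5 : ∀ (K : Type u) [Field K] (p q : K[X]) (d : ℕ),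
      Pool.Agent.Results.MP_9b502d_nt.LargeCriticalHeight.mapP1 p q d =
        Pool.Agent.W277.UH.ratP1 p q d := by
    intro K _ p q d
    funext z
    cases z <;> rfl
  -- the two classes of maps
  have hFIN : Pool.Agent.Y706.BI.S_FIN.{u, v} := by
    obtain ⟨N, hN⟩ := Pool.Agent.Results.MP_9b502d_nt.LargeCriticalHeight.result.{u, v}
    refine ⟨fun n d => N n d 0, ?_⟩
    intro k L _ _ _ _ t ht hfd n d hn hd p q hco hmax hbic hiso
    have h := hN k L t ht hfd n d 0 hn hd p q hco hmax (Or.inr ⟨hiso, by
      rcases hbic with h | ⟨A, B, U, V, h1, h2, h3⟩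
      · exact Or.inl h
      · exact Or.inr ⟨A.1, A.2, B.1, B.2, h1, U.1, U.2, V.1, V.2, h2, h3⟩⟩)
    rw [e5] at h
    exact h
  have hFIN2 : Pool.Agent.Y706.CH7.S_FIN2.{u, v} := by
    obtain ⟨N, hN⟩ := Pool.Agent.Results.MP_9b502d_nt.LargeCriticalHeight.result.{u, v}
    refine ⟨N, ?_⟩
    intro k L _ _ _ _ t ht hfd n d B hn hd p q hco hmax hlch
    have h := hN k L t ht hfd n d B hn hd p q hco hmax (Or.inl (by
      obtain ⟨M, i1, i2, i3, i4, i5, i6, u, w, h1, h2, h3, h4, c, h5, h6, h7⟩ := hlch
      have e6 : ∀ z : Option M,
          Pool.Agent.Results.MP_9b502d_nt.LargeCriticalHeight.height k z =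
            Pool.Agent.Y706.CH7.height k z := by
        intro z
        cases z <;> rfl
      have e7 : Pool.Agent.Results.MP_9b502d_nt.LargeCriticalHeight.mapHeight k u w d =
          Pool.Agent.Y706.CH7.mapHeight k u w d := by
        unfold Pool.Agent.Results.MP_9b502d_nt.LargeCriticalHeight.mapHeight
          Pool.Agent.Y706.CH7.mapHeight
        simp only [e6]
      have e8 : Pool.Agent.Results.MP_9b502d_nt.LargeCriticalHeight.canonicalHeight k u w d c =
          Pool.Agent.Y706.CH7.canHeight k u w d c := by
        unfold Pool.Agent.Results.MP_9b502d_nt.LargeCriticalHeight.canonicalHeight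
          Pool.Agent.Y706.CH7.canHeight
        rw [e5]
        simp only [e6]
      refine ⟨M, i1, i2, i3, i4, i5, i6, u, w, h1, h2, h3, h4, c, ?_, ?_, ?_⟩
      · cases c <;> exact h5
      · rw [e7]
        exact h6
      · rw [e7, e8]
        exact h7))
    rw [e5] at h
    exact h
  obtain ⟨N₁, hN₁⟩ := Pool.Agent.Y706.CH7.t_GON hFIN
  obtain ⟨N₂, hN₂⟩ := Pool.Agent.Y706.CH7.t_GON2 hFIN2
    (Pool.Agent.Y833.CH.t_EXT Pool.Agent.Y555.CH.t_HTE)
  refine ⟨fun D d B => N₁ D d + N₂ D d B, ?_⟩
  intro k K _ _ _ _ D d B hd p q hco hmax hcase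
  have hP : Preper k p q d D = {z : Option (AlgebraicClosure K) | (Set.range fun m : ℕ =>
        (Pool.Agent.W277.UH.ratP1 (p.map (algebraMap K (AlgebraicClosure K)))
          (q.map (algebraMap K (AlgebraicClosure K))) d)^[m] z).Finite ∧
      ∃ t : IntermediateField.adjoin K {x | z = some x}, Transcendental k t ∧
        FiniteDimensional (IntermediateField.adjoin k {t})
          (IntermediateField.adjoin K {x | z = some x}) ∧
        Module.finrank (IntermediateField.adjoin k {t})
          (IntermediateField.adjoin K {x | z = some x}) ≤ D} := by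
    unfold Preper
    rw [e]
    rfl
  rw [hP]
  rcases hcase with hlch | ⟨hiso, hbic⟩
  · refine (hN₂ k K D d B hd p q hco hmax ?_).trans
      (by exact_mod_cast Nat.le_add_left (N₂ D d B) (N₁ D d))
    obtain ⟨M, i1, i2, i3, i4, i5, i6, u, w, h1, h2, h3, h4, c, h5, h6, h7⟩ := hlch
    have e6 : ∀ z : Option M, height k z = Pool.Agent.Y706.CH7.height k z := by
      intro z
      cases z <;> rfl
    have e7 : mapHeight k u w d = Pool.Agent.Y706.CH7.mapHeight k u w d := by
      unfold mapHeight Pool.Agent.Y706.CH7.mapHeight
      simp only [e6]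
    have e8 : canonicalHeight k u w d c = Pool.Agent.Y706.CH7.canHeight k u w d c := by
      unfold canonicalHeight Pool.Agent.Y706.CH7.canHeight
      rw [e]
      simp only [e6]
    refine ⟨M, i1, i2, i3, i4, i5, i6, u, w, h1, h2, h3, h4, c, ?_, ?_, ?_⟩
    · cases c <;> exact h5
    · show 0 < Pool.Agent.Y706.CH7.mapHeight k u w d
      rw [← e7]
      exact h6
    · show (Pool.Agent.Y706.CH7.mapHeight k u w d : ENNReal) ≤
        B * Pool.Agent.Y706.CH7.canHeight k u w d c
      rw [← e7, ← e8]
      exact h7
  · refine (hN₁ k K D d hd p q hco hmax ?_ hiso).trans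
      (by exact_mod_cast Nat.le_add_right (N₁ D d) (N₂ D d B))
    rcases hbic with h | ⟨a₁, a₂, b₁, b₂, h1, u₁, u₂, v₁, v₂, h2, h3⟩
    · exact Or.inl h
    · exact Or.inr ⟨(a₁, a₂), (b₁, b₂), (u₁, u₂), (v₁, v₂), h1, h2, h3⟩

end Pool.Agent.Results.MP_62a0c3_nt.LargeCriticalHeight
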